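import Pool.Agent.H11.N6D.FUB

/-!
# N6, block D: row FU2
-/

set_option autoImplicit false

open MeasureTheory Pool.Agent.H28.N6

namespace Pool.Agent.H11.N6D

theorem pf_FU2 : T_FU2 := by
  intro F _ _ _ _ _ D m n A hA hb
  have hh := D.haar
  have hmA : MeasurableSet A := hA.measurableSet
  have hfin : Measure.pi (fun _ : Fin (m + n) => D.μ) A ≠ ⊤ := hb.measure_lt_top.ne
  have h1 := measurePreserving_sumPiEquivProdPi_symm (fun _ : Fin m ⊕ Fin n => D.μ)
  have h2 := measurePreserving_piCongrLeft (fun _ : Fin (m + n) => D.μ) finSumFinEquiv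
  have hg := h2.comp h1
  have h := (slice _ _ _ _ hg A hmA hfin).2
  have happ : ∀ (y : Fin m → F) (e : Fin n → F),
      (MeasurableEquiv.piCongrLeft (fun _ : Fin (m + n) => F) finSumFinEquiv ∘
        (MeasurableEquiv.sumPiEquivProdPi (fun _ : Fin m ⊕ Fin n => F)).symm) (y, e) =
        Fin.append y e := by
    intro y e
    funext i
    obtain ⟨j, rfl⟩ := finSumFinEquiv.surjective i
    rw [Function.comp_apply]
    have h3 := Equiv.piCongrLeft_apply_apply (fun _ : Fin (m + n) => F) finSumFinEquiv
      ((MeasurableEquiv.sumPiEquivProdPi (fun _ : Fin m ⊕ Fin n => F)).symm (y, e)) j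
    refine h3.trans ?_
    cases j with
    | inl j => simp [finSumFinEquiv_apply_left, Fin.append_left]; rfl
    | inr j => simp [finSumFinEquiv_apply_right, Fin.append_right]; rfl
  simp only [happ] at h
  exact h

end Pool.Agent.H11.N6D
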