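import Pool.Agent.H28.N6.Targets

/-!
# N6, block D: row FUB
-/

set_option autoImplicit false

open MeasureTheory Pool.Agent.H28.N6

namespace Pool.Agent.H11.N6D

theorem slice {X α β : Type} [MeasurableSpace X] [MeasurableSpace α] [MeasurableSpace β]
    (ρ : Measure X) (μ : Measure α) (ν : Measure β) [SFinite μ] [SFinite ν]
    (g : α × β → X) (hg : MeasurePreserving g (μ.prod ν) ρ) (A : Set X) (hA : MeasurableSet A)
    (hf : ρ A ≠ ⊤) :
    (ρ A).toReal = ∫ a, (ν {b | g (a, b) ∈ A}).toReal ∂μ ∧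
      (ρ A).toReal = ∫ b, (μ {a | g (a, b) ∈ A}).toReal ∂ν := by
  have hB : MeasurableSet (g ⁻¹' A) := hg.measurable hA
  have h0 : (μ.prod ν) (g ⁻¹' A) = ρ A := hg.measure_preimage hA.nullMeasurableSet
  have h1 := Measure.prod_apply (μ := μ) (ν := ν) hB
  have h2 := Measure.prod_apply_symm (μ := μ) (ν := ν) hB
  rw [h0] at h1 h2
  constructor
  · have hm : Measurable (fun a => ν (Prod.mk a ⁻¹' (g ⁻¹' A))) :=
      measurable_measure_prodMk_left hB
    have h3 := integral_toReal hm.aemeasurable (ae_lt_top hm (by rw [← h1]; exact hf))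
    rw [← h1] at h3
    exact h3.symm
  · have hm : Measurable (fun b => μ ((fun a => (a, b)) ⁻¹' (g ⁻¹' A))) :=
      measurable_measure_prodMk_right hB
    have h3 := integral_toReal hm.aemeasurable (ae_lt_top hm (by rw [← h2]; exact hf))
    rw [← h2] at h3
    exact h3.symm

theorem pf_FUB : T_FUB := by
  intro F _ _ _ _ _ D n A hA hb i
  have hh := D.haar
  have hmA : MeasurableSet A := hA.measurableSet
  have hfin : Measure.pi (fun _ : Fin (n + 1) => D.μ) A ≠ ⊤ := hb.measure_lt_top.ne
  have hg := (measurePreserving_piFinSuccAbove (fun _ : Fin (n + 1) => D.μ) i).symm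
  have h := slice _ _ _ _ hg A hmA hfin
  exact h

end Pool.Agent.H11.N6D
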