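import Pool.Agent.H28.N6.Targets

/-!
# N6, block D: row NRM
-/

set_option autoImplicit false

open MeasureTheory Pool.Agent.H28.N6

namespace Pool.Agent.H11.N6D

theorem pf_NRM : T_NRM := by
  intro F _ _ _ _ _ D x hx
  have hp : 0 < ‖D.p‖ := norm_pos_iff.2 D.p0
  have hx0 : 0 < ‖x‖ := norm_pos_iff.2 hx
  obtain ⟨n, hn1, hn2⟩ := exists_mem_Ico_zpow hx0 (one_lt_inv_iff₀.2 ⟨hp, D.p1⟩)
  have hne : ‖D.p‖ ≠ 0 := hp.ne'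
  have hw : ‖(x * D.p ^ n)⁻¹‖ = (‖x‖ * ‖D.p‖ ^ n)⁻¹ := by
    rw [norm_inv, norm_mul, norm_zpow]
  have hpn : 0 < ‖D.p‖ ^ n := zpow_pos hp n
  have h1 : 1 ≤ ‖x‖ * ‖D.p‖ ^ n := by
    rw [inv_zpow] at hn1
    have h := mul_le_mul_of_nonneg_right hn1 hpn.le
    rwa [inv_mul_cancel₀ hpn.ne'] at h
  have h2 : ‖x‖ * ‖D.p‖ ^ n < ‖D.p‖⁻¹ := by
    rw [inv_zpow, zpow_add_one₀ hne, mul_inv] at hn2
    have h := mul_lt_mul_of_pos_right hn2 hpn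
    calc ‖x‖ * ‖D.p‖ ^ n < (‖D.p‖ ^ n)⁻¹ * ‖D.p‖⁻¹ * ‖D.p‖ ^ n := h
      _ = ‖D.p‖⁻¹ := by field_simp
  have h3 : ‖(x * D.p ^ n)⁻¹‖ = 1 := by
    have h4 : ‖(x * D.p ^ n)⁻¹‖ ≤ 1 := by
      rw [hw]
      exact inv_le_one_of_one_le₀ h1
    rcases h4.lt_or_eq with h5 | h5
    · exfalso
      have h6 := D.gen _ h5
      rw [hw] at h6
      have h7 : ‖D.p‖ < (‖x‖ * ‖D.p‖ ^ n)⁻¹ := by
        rw [lt_inv_comm₀ hp (by linarith)]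
        exact h2
      linarith
    · exact h5
  refine ⟨-n, ?_⟩
  rw [hw, inv_eq_one] at h3
  rw [zpow_neg]
  exact eq_inv_of_mul_eq_one_left h3

end Pool.Agent.H11.N6D
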