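import Pool.Agent.H28.N6.Targets

/-!
# N6, block D: row SQU
-/

set_option autoImplicit false

open MeasureTheory Pool.Agent.H28.N6

namespace Pool.Agent.H11.N6D

theorem pf_SQU : T_SQU := by
  intro F _ _ _ h2
  have hd : HasStrictDerivAt (fun y : F => y ^ 2) 2 1 := by
    have h := hasStrictDerivAt_pow 2 (1 : F)
    simpa using h
  have hm := hd.map_nhds_eq h2
  have hball : Metric.ball (1 : F) 1 ∈ nhds (1 : F) := Metric.ball_mem_nhds 1 one_pos
  have h3 : (fun y : F => y ^ 2) '' Metric.ball (1 : F) 1 ∈ nhds ((1 : F) ^ 2) := by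
    rw [← hm]
    exact Filter.image_mem_map hball
  rw [one_pow, Metric.mem_nhds_iff] at h3
  obtain ⟨δ, hδ, hsub⟩ := h3
  refine ⟨δ, hδ, fun x hx => ?_⟩
  have h4 : x ∈ Metric.ball (1 : F) δ := by
    rw [Metric.mem_ball, dist_eq_norm]
    exact hx
  obtain ⟨y, hy, rfl⟩ := hsub h4
  rw [Metric.mem_ball, dist_eq_norm] at hy
  exact ⟨y, rfl, hy⟩

end Pool.Agent.H11.N6D
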